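import Mathlib

/-!
# The numerators `N_α = (q)_α² 𝔍_α` need not be unimodal

In type `B_2` and for `α = 2 α_1 + 2 α_2`,
`N_α = 1 + q + 3 q² + 2 q³ + 5 q⁴ + 2 q⁵ + 3 q⁶ + q⁷ + q⁸`.
-/

open Finset Polynomial

namespace Pool.Agent.Results.MP_4223bd_al.NotUnimodal

variable {n : ℕ}

/-- `(α, α) / 2` for `α = ∑ a_i α_i`, where `(α_i, α_j) = A i j * d j`. -/
def halfNorm (A : Matrix (Fin n) (Fin n) ℤ) (d : Fin n → ℕ) (a : Fin n → ℕ) : ℕ :=
  ((∑ i, ∑ j, (a i : ℤ) * (A i j * d j) * a j) / 2).toNat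

/-- `(q)_α = ∏_i ∏_{j=1}^{a_i} (1 - q^{d_i j})`. -/
noncomputable def qfac (d : Fin n → ℕ) (a : Fin n → ℕ) : RatFunc ℚ :=
  ∏ i, ∏ j ∈ range (a i), (1 - RatFunc.X ^ (d i * (j + 1)))

/-- The defining properties of the family `𝔍_α`: `𝔍_0 = 1` and
`𝔍_α = ∑_{0 ≤ β ≤ α} q^{(β,β)/2} / (q)_{α-β} 𝔍_β`. -/
def IsJ (A : Matrix (Fin n) (Fin n) ℤ) (d : Fin n → ℕ) (J : (Fin n → ℕ) → RatFunc ℚ) : Prop :=
  J 0 = 1 ∧ ∀ a, J a = ∑ b ∈ Iic a, RatFunc.X ^ halfNorm A d b / qfac d (a - b) * J b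

/-- Unimodality of a polynomial. -/
def Unimodal (N : ℚ[X]) : Prop :=
  ∃ m, (∀ i j, i ≤ j → j ≤ m → N.coeff i ≤ N.coeff j) ∧
    ∀ i j, m ≤ i → i ≤ j → j ≤ N.natDegree → N.coeff j ≤ N.coeff i

theorem one_sub_pow_ne (k : ℕ) (hk : k ≠ 0) : (1 - RatFunc.X ^ k : RatFunc ℚ) ≠ 0 := by
  intro h
  have h1 : (RatFunc.X ^ k : RatFunc ℚ) = 1 := (sub_eq_zero.mp h).symm
  have h2 : algebraMap ℚ[X] (RatFunc ℚ) (X ^ k) = algebraMap ℚ[X] (RatFunc ℚ) 1 := by
    rw [map_pow, RatFunc.algebraMap_X, map_one, h1]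
  have h3 := RatFunc.algebraMap_injective ℚ h2
  have h4 := congrArg natDegree h3
  rw [natDegree_X_pow, natDegree_one] at h4
  exact hk h4

theorem qfac_zero (d : Fin n → ℕ) : qfac d 0 = 1 := by simp [qfac]

/-- The equivalent explicit recursion. -/
theorem isJ_iff (A : Matrix (Fin n) (Fin n) ℤ) (d : Fin n → ℕ)
    (h : ∀ a, a ≠ 0 → halfNorm A d a ≠ 0) (h0 : halfNorm A d 0 = 0)
    (J : (Fin n → ℕ) → RatFunc ℚ) :
    IsJ A d J ↔ J 0 = 1 ∧ ∀ a, a ≠ 0 → J a = (1 - RatFunc.X ^ halfNorm A d a)⁻¹ *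
      ∑ b ∈ Iio a, RatFunc.X ^ halfNorm A d b / qfac d (a - b) * J b := by
  have key : ∀ a, ∑ b ∈ Iic a, RatFunc.X ^ halfNorm A d b / qfac d (a - b) * J b =
      RatFunc.X ^ halfNorm A d a * J a +
        ∑ b ∈ Iio a, RatFunc.X ^ halfNorm A d b / qfac d (a - b) * J b := by
    intro a
    rw [← Iio_insert, sum_insert (by simp), tsub_self, qfac_zero, div_one]
  unfold IsJ
  refine and_congr_right fun hJ0 => ?_
  constructor
  · intro hJ a ha
    have h1 := hJ a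
    rw [key] at h1
    have h2 := one_sub_pow_ne _ (h a ha)
    rw [eq_inv_mul_iff_mul_eq₀ h2]
    linear_combination h1
  · intro hJ a
    by_cases ha : a = 0
    · subst ha
      rw [key, h0, pow_zero, one_mul]
      have : Iio (0 : Fin n → ℕ) = ∅ := by
        ext b
        simp only [mem_Iio, notMem_empty, iff_false]
        exact not_lt_of_ge (fun i => Nat.zero_le _)
      rw [this, sum_empty, add_zero]
    · have h1 := hJ a ha
      have h2 := one_sub_pow_ne _ (h a ha)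
      rw [eq_inv_mul_iff_mul_eq₀ h2] at h1
      rw [key]
      linear_combination h1

/-- Existence and uniqueness of the family `𝔍_α`. -/
theorem existsUnique_J (A : Matrix (Fin n) (Fin n) ℤ) (d : Fin n → ℕ)
    (h : ∀ a, a ≠ 0 → halfNorm A d a ≠ 0) (h0 : halfNorm A d 0 = 0) :
    ∃! J, IsJ A d J := by
  classical
  have wf : WellFounded ((· < ·) : (Fin n → ℕ) → (Fin n → ℕ) → Prop) := wellFounded_lt
  let F : (a : Fin n → ℕ) → ((b : Fin n → ℕ) → b < a → RatFunc ℚ) → RatFunc ℚ := fun a ih =>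
    if a = 0 then 1 else (1 - RatFunc.X ^ halfNorm A d a)⁻¹ *
      ∑ b ∈ (Iio a).attach, RatFunc.X ^ halfNorm A d b.1 / qfac d (a - b.1) *
        ih b.1 (mem_Iio.mp b.2)
  have hfix : ∀ a, wf.fix F a = F a fun b _ => wf.fix F b := fun a => wf.fix_eq F a
  refine ⟨wf.fix F, ?_, ?_⟩
  · beta_reduce
    rw [isJ_iff A d h h0]
    constructor
    · rw [hfix]; simp [F]
    · intro a ha
      rw [hfix]
      simp only [F, if_neg ha]
      congr 1
      exact sum_attach (Iio a) fun b =>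
        RatFunc.X ^ halfNorm A d b / qfac d (a - b) * wf.fix F b
  · intro J hJ
    rw [isJ_iff A d h h0] at hJ
    funext a
    induction a using wf.induction with
    | _ a ih =>
      rw [hfix]
      by_cases ha : a = 0
      · subst ha
        rw [hJ.1]; simp [F]
      · rw [hJ.2 a ha]
        simp only [F, if_neg ha]
        congr 1
        rw [← sum_attach]
        exact sum_congr rfl fun b _ => by rw [ih b.1 (mem_Iio.mp b.2)]

/-- The symmetriser of type `B_2`: `(α_i, α_i) = 2 d_i`, the second simple root is short. -/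
def d2 : Fin 2 → ℕ := ![2, 1]

theorem halfNorm_B2 (a : Fin 2 → ℕ) :
    (halfNorm (CartanMatrix.B 2) d2 a : ℤ) = 2 * a 0 ^ 2 - 2 * a 0 * a 1 + a 1 ^ 2 := by
  have h : (∑ i, ∑ j, (a i : ℤ) * (CartanMatrix.B 2 i j * d2 j) * a j) =
      2 * (2 * a 0 ^ 2 - 2 * a 0 * a 1 + a 1 ^ 2) := by
    simp [Fin.sum_univ_two, CartanMatrix.B, d2]
    ring
  unfold halfNorm
  rw [h, Int.mul_ediv_cancel_left _ (by norm_num), Int.toNat_of_nonneg]
  nlinarith [sq_nonneg ((a 0 : ℤ) - a 1), sq_nonneg (a 0 : ℤ)]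

theorem halfNorm_ne (a : Fin 2 → ℕ) (ha : a ≠ 0) : halfNorm (CartanMatrix.B 2) d2 a ≠ 0 := by
  intro h
  have h1 := halfNorm_B2 a
  rw [h] at h1
  push_cast at h1
  have h2 : (a 0 : ℤ) = 0 := by
    nlinarith [sq_nonneg ((a 0 : ℤ) - a 1), sq_nonneg (a 0 : ℤ)]
  have h3 : (a 1 : ℤ) = 0 := by
    rw [h2] at h1
    nlinarith
  apply ha
  funext i
  fin_cases i
  · exact_mod_cast h2
  · exact_mod_cast h3

theorem hN (x y : ℕ) (k : ℕ) (h : (k : ℤ) = 2 * x ^ 2 - 2 * x * y + y ^ 2) :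
    halfNorm (CartanMatrix.B 2) d2 ![x, y] = k := by
  have := halfNorm_B2 ![x, y]
  simp only [Matrix.cons_val_zero, Matrix.cons_val_one] at this
  rw [← h] at this
  exact_mod_cast this

/-- The polynomial `N_α` for `α = 2 α_1 + 2 α_2`. -/
noncomputable def N22 : ℚ[X] :=
  1 + X + 3 * X ^ 2 + 2 * X ^ 3 + 5 * X ^ 4 + 2 * X ^ 5 + 3 * X ^ 6 + X ^ 7 + X ^ 8

theorem Iio01 : Iio (![0, 1] : Fin 2 → ℕ) = {![0, 0]} := by decide
theorem Iio10 : Iio (![1, 0] : Fin 2 → ℕ) = {![0, 0]} := by decide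
theorem Iio02 : Iio (![0, 2] : Fin 2 → ℕ) = {![0, 0], ![0, 1]} := by decide
theorem Iio20 : Iio (![2, 0] : Fin 2 → ℕ) = {![0, 0], ![1, 0]} := by decide
theorem Iio11 : Iio (![1, 1] : Fin 2 → ℕ) = {![0, 0], ![0, 1], ![1, 0]} := by decide
theorem Iio12 : Iio (![1, 2] : Fin 2 → ℕ) = {![0, 0], ![0, 1], ![0, 2], ![1, 0], ![1, 1]} := by
  decide
theorem Iio21 : Iio (![2, 1] : Fin 2 → ℕ) = {![0, 0], ![0, 1], ![1, 0], ![1, 1], ![2, 0]} := by
  decide
theorem Iio22 : Iio (![2, 2] : Fin 2 → ℕ) =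
    {![0, 0], ![0, 1], ![0, 2], ![1, 0], ![1, 1], ![1, 2], ![2, 0], ![2, 1]} := by
  decide


theorem qf (x y : ℕ) : qfac d2 ![x, y] = (∏ j ∈ range x, (1 - RatFunc.X ^ (2 * (j + 1)))) *
    ∏ j ∈ range y, (1 - RatFunc.X ^ (j + 1)) := by
  simp [qfac, Fin.prod_univ_two, d2]

theorem sub2 (x y u v : ℕ) : (![x, y] - ![u, v] : Fin 2 → ℕ) = ![x - u, y - v] := by
  funext i; fin_cases i <;> rfl

theorem ne00 (x y : ℕ) (h : x ≠ 0 ∨ y ≠ 0) : (![x, y] : Fin 2 → ℕ) ≠ 0 := by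
  intro h'
  have h0 := congrFun h' 0
  have h1 := congrFun h' 1
  simp at h0 h1
  omega

theorem value (J : (Fin 2 → ℕ) → RatFunc ℚ) (hJ : IsJ (CartanMatrix.B 2) d2 J) :
    (qfac d2 ![2, 2]) ^ 2 * J ![2, 2] = algebraMap ℚ[X] (RatFunc ℚ) N22 := by
  have h0 : halfNorm (CartanMatrix.B 2) d2 0 = 0 := by
    have h1 : (halfNorm (CartanMatrix.B 2) d2 0 : ℤ) = 0 := by
      rw [halfNorm_B2]
      norm_num
    exact_mod_cast h1
  obtain ⟨hJ0, hrec⟩ := (isJ_iff _ _ halfNorm_ne h0 J).mp hJ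
  have J00 : J ![0, 0] = 1 := by
    have : (![0, 0] : Fin 2 → ℕ) = 0 := by funext i; fin_cases i <;> rfl
    rw [this, hJ0]
  set q : RatFunc ℚ := RatFunc.X with hq
  have n1 : (1 - q : RatFunc ℚ) ≠ 0 := by
    have := one_sub_pow_ne 1 (by norm_num)
    rwa [pow_one] at this
  have n2 : (1 - q ^ 2 : RatFunc ℚ) ≠ 0 := one_sub_pow_ne 2 (by norm_num)
  have n4 : (1 - q ^ 4 : RatFunc ℚ) ≠ 0 := one_sub_pow_ne 4 (by norm_num)
  have n5 : (1 - q ^ 5 : RatFunc ℚ) ≠ 0 := one_sub_pow_ne 5 (by norm_num)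
  have n8 : (1 - q ^ 8 : RatFunc ℚ) ≠ 0 := one_sub_pow_ne 8 (by norm_num)
  have e00 := hN 0 0 0 (by norm_num)
  have e01 := hN 0 1 1 (by norm_num)
  have e02 := hN 0 2 4 (by norm_num)
  have e10 := hN 1 0 2 (by norm_num)
  have e11 := hN 1 1 1 (by norm_num)
  have e12 := hN 1 2 2 (by norm_num)
  have e20 := hN 2 0 8 (by norm_num)
  have e21 := hN 2 1 5 (by norm_num)
  have e22 := hN 2 2 4 (by norm_num)
  have q01 : qfac d2 ![0, 1] = 1 - q := by rw [qf]; simp [hq]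
  have q02 : qfac d2 ![0, 2] = (1 - q) * (1 - q ^ 2) := by rw [qf]; simp [prod_range_succ, hq]
  have q10 : qfac d2 ![1, 0] = 1 - q ^ 2 := by rw [qf]; simp [hq]
  have q11 : qfac d2 ![1, 1] = (1 - q ^ 2) * (1 - q) := by rw [qf]; simp [hq]
  have q12 : qfac d2 ![1, 2] = (1 - q ^ 2) * ((1 - q) * (1 - q ^ 2)) := by
    rw [qf]; simp [prod_range_succ, hq]
  have q20 : qfac d2 ![2, 0] = (1 - q ^ 2) * (1 - q ^ 4) := by
    rw [qf]; simp [prod_range_succ, hq]
  have q21 : qfac d2 ![2, 1] = (1 - q ^ 2) * (1 - q ^ 4) * (1 - q) := by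
    rw [qf]; simp [prod_range_succ, hq]
  have q22 : qfac d2 ![2, 2] = (1 - q ^ 2) * (1 - q ^ 4) * ((1 - q) * (1 - q ^ 2)) := by
    rw [qf]; simp [prod_range_succ, hq]
  have J01 : J ![0, 1] = 1 / (1 - q) ^ 2 := by
    rw [hrec _ (ne00 0 1 (by norm_num)), Iio01, sum_singleton, sub2, e00, e01, J00]
    norm_num [q01]
    field_simp
  have J10 : J ![1, 0] = 1 / (1 - q ^ 2) ^ 2 := by
    rw [hrec _ (ne00 1 0 (by norm_num)), Iio10, sum_singleton, sub2, e00, e10, J00]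
    norm_num [q10]
    field_simp
  have J02 : J ![0, 2] = 1 / ((1 - q) * (1 - q ^ 2)) ^ 2 := by
    rw [hrec _ (ne00 0 2 (by norm_num)), Iio02, sum_insert (by decide), sum_singleton, sub2, sub2,
      e00, e01, e02, J00, J01]
    norm_num [q01, q02]
    field_simp
    ring
  have J20 : J ![2, 0] = 1 / ((1 - q ^ 2) * (1 - q ^ 4)) ^ 2 := by
    rw [hrec _ (ne00 2 0 (by norm_num)), Iio20, sum_insert (by decide), sum_singleton, sub2, sub2,
      e00, e10, e20, J00, J10]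
    norm_num [q10, q20]
    field_simp
    ring
  have J11 : J ![1, 1] = (1 + q + q ^ 2) / ((1 - q ^ 2) * (1 - q)) ^ 2 := by
    rw [hrec _ (ne00 1 1 (by norm_num)), Iio11, sum_insert (by decide), sum_insert (by decide),
      sum_singleton, sub2, sub2, sub2, e00, e01, e10, e11, J00, J01, J10]
    norm_num [q10, q01, q11]
    field_simp
    ring
  have J12 : J ![1, 2] = (1 + q + 3 * q ^ 2 + q ^ 3 + q ^ 4) /
      ((1 - q ^ 2) * ((1 - q) * (1 - q ^ 2))) ^ 2 := by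
    rw [hrec _ (ne00 1 2 (by norm_num)), Iio12, sum_insert (by decide), sum_insert (by decide),
      sum_insert (by decide), sum_insert (by decide), sum_singleton, sub2, sub2, sub2, sub2, sub2,
      e00, e01, e02, e10, e11, e12, J00, J01, J02, J10, J11]
    norm_num [q10, q01, q11, q02, q12]
    field_simp
    ring
  have J21 : J ![2, 1] = (1 + q + q ^ 2 + q ^ 3 + q ^ 4) /
      ((1 - q ^ 2) * (1 - q ^ 4) * (1 - q)) ^ 2 := by
    rw [hrec _ (ne00 2 1 (by norm_num)), Iio21, sum_insert (by decide), sum_insert (by decide),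
      sum_insert (by decide), sum_insert (by decide), sum_singleton, sub2, sub2, sub2, sub2, sub2,
      e00, e01, e10, e11, e20, e21, J00, J01, J10, J11, J20]
    norm_num [q10, q01, q11, q20, q21]
    field_simp
    ring
  have hN22 : algebraMap ℚ[X] (RatFunc ℚ) N22 =
      1 + q + 3 * q ^ 2 + 2 * q ^ 3 + 5 * q ^ 4 + 2 * q ^ 5 + 3 * q ^ 6 + q ^ 7 + q ^ 8 := by
    have m3 : algebraMap ℚ[X] (RatFunc ℚ) 3 = 3 := map_ofNat _ 3
    have m2 : algebraMap ℚ[X] (RatFunc ℚ) 2 = 2 := map_ofNat _ 2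
    have m5 : algebraMap ℚ[X] (RatFunc ℚ) 5 = 5 := map_ofNat _ 5
    simp only [N22, map_add, map_mul, map_pow, map_one, RatFunc.algebraMap_X, m2, m3, m5, hq]
  rw [hrec _ (ne00 2 2 (by norm_num)), Iio22, sum_insert (by decide), sum_insert (by decide),
      sum_insert (by decide), sum_insert (by decide), sum_insert (by decide),
      sum_insert (by decide), sum_insert (by decide), sum_singleton, sub2, sub2, sub2, sub2, sub2,
      sub2, sub2, sub2, e00, e01, e02, e10, e11, e12, e20, e21, e22, J00, J01, J02, J10, J11, J12,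
      J20, J21, hN22, q22]
  norm_num [q10, q01, q11, q20, q21, q02, q12, q22]
  field_simp
  ring

theorem N22_coeff (k : ℕ) : N22.coeff k =
    if k = 0 then 1 else if k = 1 then 1 else if k = 2 then 3 else if k = 3 then 2 else
    if k = 4 then 5 else if k = 5 then 2 else if k = 6 then 3 else if k = 7 then 1 else
    if k = 8 then 1 else 0 := by
  have h3 : (3 : ℚ[X]) = C 3 := rfl
  have h2 : (2 : ℚ[X]) = C 2 := rfl
  have h5 : (5 : ℚ[X]) = C 5 := rfl
  rw [N22, h3, h2, h5]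
  simp only [coeff_add, coeff_one, coeff_X, coeff_C_mul, coeff_X_pow]
  by_cases h : k < 9
  · interval_cases k <;> norm_num
  · simp only [show ¬ k = 0 by omega, show ¬ k = 1 by omega, show ¬ (1 = k) by omega,
      show ¬ k = 2 by omega, show ¬ k = 3 by omega, show ¬ k = 4 by omega, show ¬ k = 5 by omega,
      show ¬ k = 6 by omega, show ¬ k = 7 by omega, show ¬ k = 8 by omega, if_false]
    norm_num

theorem not_unimodal : ¬ Unimodal N22 := by
  rintro ⟨m, h1, h2⟩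
  have hdeg : 8 ≤ N22.natDegree := by
    apply le_natDegree_of_ne_zero
    rw [N22_coeff]; norm_num
  by_cases hm : 3 ≤ m
  · have := h1 2 3 (by norm_num) hm
    rw [N22_coeff, N22_coeff] at this
    norm_num at this
  · have := h2 3 4 (by omega) (by norm_num) (by omega)
    rw [N22_coeff, N22_coeff] at this
    norm_num at this

/-- The negation of Q1: for the root system of type `B_2` and `α = 2 α_1 + 2 α_2`, the polynomial
`N_α = (q)_α² 𝔍_α` is not unimodal. -/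
theorem result :
    -- the Gram matrix `(α_i, α_j)` of the simple roots of `B_2` (`α_2` is short, `(α_2, α_2) = 2`)
    (∀ i j, CartanMatrix.B 2 i j * d2 j = (!![4, -2; -2, 2] : Matrix (Fin 2) (Fin 2) ℤ) i j) ∧
    -- the family `𝔍_α` exists and is unique
    (∃! J, IsJ (CartanMatrix.B 2) d2 J) ∧
    ∀ J, IsJ (CartanMatrix.B 2) d2 J →
      ∃ N : ℚ[X], algebraMap ℚ[X] (RatFunc ℚ) N = (qfac d2 ![2, 2]) ^ 2 * J ![2, 2] ∧
        N = 1 + X + 3 * X ^ 2 + 2 * X ^ 3 + 5 * X ^ 4 + 2 * X ^ 5 + 3 * X ^ 6 + X ^ 7 + X ^ 8 ∧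
        ¬ Unimodal N := by
  have h0 : halfNorm (CartanMatrix.B 2) d2 0 = 0 := by
    have h1 : (halfNorm (CartanMatrix.B 2) d2 0 : ℤ) = 0 := by
      rw [halfNorm_B2]
      norm_num
    exact_mod_cast h1
  refine ⟨?_, existsUnique_J _ _ halfNorm_ne h0, fun J hJ => ?_⟩
  · intro i j
    fin_cases i <;> fin_cases j <;> simp [CartanMatrix.B, d2]
  exact ⟨N22, (value J hJ).symm, rfl, not_unimodal⟩

end Pool.Agent.Results.MP_4223bd_al.NotUnimodal
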